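import Mathlib

/-!
# MP_953c35_gt: the games `G₁(𝒩[𝒜], ¬Γ(X,ℬ))` and `G₁(𝒩[𝒜], ¬𝒪(X,ℬ))` are not equivalent for Two

`X` is the one-point compactification of the discrete space `ω₁`.
-/

set_option autoImplicit false

namespace Pool.Agent.Results.MP_953c35_gt.NotEquivalent

open Set Topology

/-- `𝒪(X, ℬ)`: open covers `𝒰` of `X` with `X ∉ 𝒰` such that every `B ∈ ℬ` lies in a member. -/
def OFam (X : Type) [TopologicalSpace X] (ℬ : Set (Set X)) : Set (Set (Set X)) :=
  {𝒰 | (∀ U ∈ 𝒰, IsOpen U) ∧ ⋃₀ 𝒰 = univ ∧ univ ∉ 𝒰 ∧ ∀ B ∈ ℬ, ∃ U ∈ 𝒰, B ⊆ U}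

/-- `Γ(X, ℬ)`: infinite open covers `𝒰` of `X` with `X ∉ 𝒰` such that every `B ∈ ℬ` lies in all
but finitely many members. -/
def GammaFam (X : Type) [TopologicalSpace X] (ℬ : Set (Set X)) : Set (Set (Set X)) :=
  {𝒰 | 𝒰.Infinite ∧ (∀ U ∈ 𝒰, IsOpen U) ∧ ⋃₀ 𝒰 = univ ∧ univ ∉ 𝒰 ∧
    ∀ B ∈ ℬ, {U ∈ 𝒰 | ¬ B ⊆ U}.Finite}

/-- `𝒜` is an ideal base. -/
def IdealBase {X : Type} (𝒜 : Set (Set X)) : Prop :=
  ∀ A₁ ∈ 𝒜, ∀ A₂ ∈ 𝒜, ∃ A₃ ∈ 𝒜, A₁ ∪ A₂ ⊆ A₃

/-- The open set `U` is a legal answer to `A`. -/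
def Legal {X : Type} [TopologicalSpace X] (A U : Set X) : Prop := IsOpen U ∧ A ⊆ U ∧ U ≠ univ

/-- The moves of One before inning `n`. -/
def hist {X : Type} (A : ℕ → X) (n : ℕ) : List X := (List.range n).map A

/-- Two has a winning strategy in `G₁(𝒩[𝒜], ¬𝒬)`: `σ l A` is the answer to `A` after One has
played the moves in the list `l` before. -/
def TwoWins (X : Type) [TopologicalSpace X] (𝒜 : Set (Set X)) (𝒬 : Set (Set (Set X))) : Prop :=
  ∃ σ : List (Set X) → Set X → Set X, ∀ A : ℕ → Set X, (∀ n, A n ∈ 𝒜) →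
    (∀ n, Legal (A n) (σ (hist A n) (A n))) ∧ range (fun n => σ (hist A n) (A n)) ∉ 𝒬

/-- Two has a winning Markov strategy in `G₁(𝒩[𝒜], ¬𝒬)`. -/
def TwoWinsMarkov (X : Type) [TopologicalSpace X] (𝒜 : Set (Set X)) (𝒬 : Set (Set (Set X))) :
    Prop :=
  ∃ τ : ℕ → Set X → Set X, ∀ A : ℕ → Set X, (∀ n, A n ∈ 𝒜) →
    (∀ n, Legal (A n) (τ n (A n))) ∧ range (fun n => τ n (A n)) ∉ 𝒬

lemma TwoWinsMarkov.twoWins {X : Type} [TopologicalSpace X] {𝒜 : Set (Set X)}
    {𝒬 : Set (Set (Set X))} (h : TwoWinsMarkov X 𝒜 𝒬) : TwoWins X 𝒜 𝒬 := by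
  obtain ⟨τ, hτ⟩ := h
  refine ⟨fun l A => τ l.length A, fun A hA => ?_⟩
  have : ∀ n, (hist A n).length = n := fun n => by simp [hist]
  simpa only [this] using hτ A hA

/-! ### Combinatorics of `ω₁` -/

section comb

variable {D : Type} [LinearOrder D]

lemma exists_gt_of_countable [Uncountable D] (hc : ∀ a : D, (Iio a).Countable) {S : Set D}
    (hS : S.Countable) : ∃ b, ∀ s ∈ S, s < b := by
  by_contra hcon
  push Not at hcon
  have h1 : (univ : Set D) ⊆ ⋃ s ∈ S, Iic s := fun b _ => by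
    obtain ⟨s, hs, hb⟩ := hcon b
    exact mem_iUnion₂.2 ⟨s, hs, hb⟩
  have h2 : (⋃ s ∈ S, Iic s).Countable := hS.biUnion fun s _ => by
    have : Iic s = insert s (Iio s) := by
      ext x
      simp [le_iff_eq_or_lt]
    rw [this]
    exact (hc s).insert s
  exact not_countable_univ_iff.2 inferInstance (h2.mono h1)

/-- a ladder system, given by monotone functions -/
lemma exists_ladder (hc : ∀ a : D, (Iio a).Countable) :
    ∃ f : D → D → ℕ, (∀ γ x y, x ≤ y → y < γ → f γ x ≤ f γ y) ∧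
      ∀ γ k, (∃ x, x < γ ∧ f γ x = k) → ∃ y, y < γ ∧ ∀ x, x < γ → f γ x = k → x ≤ y := by
  have he : ∀ γ : D, ∃ e : D → ℕ, InjOn e (Iio γ) := fun γ => countable_iff_exists_injOn.1 (hc γ)
  choose e he using he
  let S : D → D → Set ℕ := fun γ x => {k | ∃ y, x ≤ y ∧ y < γ ∧ e γ y = k}
  have hne : ∀ γ x, x < γ → (S γ x).Nonempty := fun γ x hx => ⟨e γ x, x, le_rfl, hx, rfl⟩
  refine ⟨fun γ x => sInf (S γ x), ?_, ?_⟩
  · intro γ x y hxy hy
    apply Nat.sInf_le
    obtain ⟨z, hz, hz', hz''⟩ := Nat.sInf_mem (hne γ y hy)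
    exact ⟨z, hxy.trans hz, hz', hz''⟩
  · rintro γ k ⟨x, hx, hxk⟩
    obtain ⟨z, hz, hz', hz''⟩ := Nat.sInf_mem (hne γ x hx)
    refine ⟨z, hz', fun x' hx' hk' => ?_⟩
    obtain ⟨w, hw, hw', hw''⟩ := Nat.sInf_mem (hne γ x' hx')
    have : w = z := he γ hw' hz' (by
      rw [hz'', hw'']
      exact hk'.trans hxk.symm)
    exact this ▸ hw

end comb

/-- the discrete space `ω₁` -/
def D : Type := (Cardinal.aleph 1).ord.ToType

noncomputable instance : LinearOrder D := inferInstanceAs (LinearOrder (Cardinal.aleph 1).ord.ToType)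

instance : WellFoundedLT D := inferInstanceAs (WellFoundedLT (Cardinal.aleph 1).ord.ToType)

instance : TopologicalSpace D := ⊥

instance : DiscreteTopology D := ⟨rfl⟩

lemma mk_D : Cardinal.mk D = Cardinal.aleph 1 := Cardinal.mk_ord_toType _

lemma countable_Iio (a : D) : (Iio a).Countable := by
  have := Cardinal.mk_Iio_toType_ord_lt (c := Cardinal.aleph 1) a
  rwa [← Cardinal.countable_iff_lt_aleph_one] at this

instance : Uncountable D := by
  rw [← Cardinal.aleph0_lt_mk_iff, mk_D]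
  exact Cardinal.aleph0_lt_aleph_one

/-- `D` splits into countably many unbounded sets -/
lemma exists_split : ∃ r : D → ℕ, ∀ (n : ℕ) (S : Set D), S.Countable → ∃ b, (∀ s ∈ S, s < b) ∧
    r b = n := by
  have h1 : Cardinal.mk (D × ℕ) = Cardinal.mk D := by
    rw [Cardinal.mk_prod, Cardinal.lift_id, Cardinal.lift_id, mk_D, Cardinal.mk_nat,
      Cardinal.mul_aleph0_eq (by simp)]
  obtain ⟨φ⟩ := Cardinal.eq.1 h1
  refine ⟨fun d => (φ.symm d).2, fun n S hS => ?_⟩
  by_contra hcon
  push Not at hcon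
  have h2 : (range fun d : D => φ (d, n)).Countable := by
    obtain ⟨b, hb⟩ := exists_gt_of_countable countable_Iio hS
    refine (countable_Iio b).mono ?_
    rintro _ ⟨d, rfl⟩
    by_contra hd
    rw [mem_Iio, not_lt] at hd
    exact hcon (φ (d, n)) (fun s hs => (hb s hs).trans_le hd) (by simp)
  have h3 : Function.Injective fun d : D => φ (d, n) := fun a b hab => by
    simpa using hab
  have h4 : Countable D := by
    rw [← countable_univ_iff, ← preimage_range (fun d : D => φ (d, n))]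
    exact h2.preimage h3
  exact not_countable h4

/-- the space of the example -/
abbrev X : Type := OnePoint D

/-- the ideal base: countable sets of isolated points together with `∞` -/
def 𝒜 : Set (Set X) := {A | ∃ J : Set D, J.Countable ∧ A = insert OnePoint.infty ((↑) '' J)}

/-- the sets which are thin with respect to the ladder system `f` -/
def ℬ (f : D → D → ℕ) : Set (Set X) :=
  {B | ∃ (γ : D) (C : Set D), C ⊆ Iio γ ∧ InjOn (f γ) C ∧ B = (↑) '' C}

lemma isOpen_compl_coe (F : Set D) (hF : F.Finite) : IsOpen (((↑) '' F : Set X)ᶜ) := by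
  rw [isOpen_compl_iff]
  exact (hF.image _).isClosed

/-- legal answers omit a nonempty finite subset of `D` -/
lemma legal_spec {J : Set D} {U : Set X} (hU : Legal (insert OnePoint.infty ((↑) '' J)) U) :
    ({x : D | (x : X) ∉ U}).Finite ∧ ({x : D | (x : X) ∉ U}).Nonempty ∧ Disjoint {x : D | (x : X) ∉ U} J := by
  obtain ⟨h1, h2, h3⟩ := hU
  have hinf : OnePoint.infty ∈ U := h2 (mem_insert _ _)
  refine ⟨?_, ?_, ?_⟩
  · have := ((OnePoint.isOpen_iff_of_mem hinf).1 h1).2
    have h4 := isCompact_iff_finite.1 this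
    refine h4.subset ?_
    intro x hx
    exact hx
  · obtain ⟨x, hx⟩ := (ne_univ_iff_exists_notMem _).1 h3
    induction x using OnePoint.rec with
    | infty => exact (hx hinf).elim
    | coe x => exact ⟨x, hx⟩
  · rw [Set.disjoint_left]
    intro x hx hxJ
    exact hx (h2 (Or.inr ⟨x, hxJ, rfl⟩))

/-- Two wins the game for `Γ` with a Markov strategy -/
lemma markov_gamma (f : D → D → ℕ)
    (hf2 : ∀ γ k, (∃ x, x < γ ∧ f γ x = k) → ∃ y, y < γ ∧ ∀ x, x < γ → f γ x = k → x ≤ y) :
    TwoWinsMarkov X 𝒜 (GammaFam X (ℬ f)) := by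
  classical
  obtain ⟨r, hr⟩ := exists_split
  -- the point omitted in inning `n` in answer to `A`
  have hp : ∀ (n : ℕ) (A : Set X), ∃ b : D, A ∈ 𝒜 → (∀ s : D, (s : X) ∈ A → s < b) ∧ r b = n := by
    intro n A
    by_cases hA : A ∈ 𝒜
    · obtain ⟨J, hJ, rfl⟩ := hA
      obtain ⟨b, hb, hb'⟩ := hr n J hJ
      refine ⟨b, fun _ => ⟨fun s hs => hb s ?_, hb'⟩⟩
      rcases hs with h | ⟨t, ht, hts⟩
      · exact (OnePoint.coe_ne_infty _ h).elim
      · rwa [← OnePoint.coe_injective hts]
    · obtain ⟨b, -⟩ := hr 0 ∅ countable_empty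
      exact ⟨b, fun h => (hA h).elim⟩
  choose p hp using hp
  refine ⟨fun n A => {(p n A : X)}ᶜ, fun A hA => ⟨fun n => ⟨isClosed_singleton.isOpen_compl, ?_, ?_⟩,
    ?_⟩⟩
  · intro x hx hx'
    rw [mem_singleton_iff] at hx'
    subst hx'
    exact lt_irrefl _ ((hp n (A n) (hA n)).1 _ hx)
  · intro h
    have h' : ({(p n (A n) : X)}ᶜ : Set X) = univ := h
    have : (p n (A n) : X) ∈ ({(p n (A n) : X)}ᶜ : Set X) := by
      rw [h']
      exact mem_univ _
    exact this rfl
  · rintro ⟨-, -, -, -, hΓ⟩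
    -- the omitted points
    let q : ℕ → D := fun n => p n (A n)
    have hq : Function.Injective q := fun n m hnm => by
      have h1 := (hp n (A n) (hA n)).2
      have h2 := (hp m (A m) (hA m)).2
      rw [← h1, ← h2]
      exact congrArg r hnm
    -- the least `γ` with infinitely many of the omitted points below it
    have hex : {γ : D | {n | q n < γ}.Infinite}.Nonempty := by
      obtain ⟨b, hb⟩ := exists_gt_of_countable countable_Iio (countable_range q)
      refine ⟨b, ?_⟩
      have : {n | q n < b} = univ := eq_univ_of_forall fun n => hb _ ⟨n, rfl⟩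
      rw [mem_ofPred_eq, this]
      exact infinite_univ
    obtain ⟨γ, hγ, hmin⟩ : ∃ γ : D, {n | q n < γ}.Infinite ∧ ∀ x < γ, {n | q n < x}.Finite := by
      refine ⟨(wellFounded_lt : WellFounded ((· < ·) : D → D → Prop)).min _ hex,
        WellFounded.min_mem _ _ hex, fun x hx => ?_⟩
      by_contra hcon
      exact WellFounded.not_lt_min wellFounded_lt (x := x) _ hcon hx
    -- fibres
    have hfib : ∀ k, {n | q n < γ ∧ f γ (q n) = k}.Finite := by
      intro k
      by_cases hk : ∃ x, x < γ ∧ f γ x = k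
      · obtain ⟨y, hy, hy'⟩ := hf2 γ k hk
        have h1 : {n | q n < γ ∧ f γ (q n) = k} ⊆ {n | q n < y} ∪ q ⁻¹' {y} := by
          rintro n ⟨hn1, hn2⟩
          rcases (hy' _ hn1 hn2).lt_or_eq with h | h
          · exact Or.inl h
          · exact Or.inr h
        exact ((hmin y hy).union ((finite_singleton y).preimage hq.injOn)).subset h1
      · have : {n | q n < γ ∧ f γ (q n) = k} = ∅ := by
          rw [eq_empty_iff_forall_notMem]
          rintro n ⟨h1, h2⟩
          exact hk ⟨q n, h1, h2⟩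
        rw [this]
        exact finite_empty
    obtain ⟨N', hN', hbij⟩ := exists_subset_bijOn {n | q n < γ} (fun n => f γ (q n))
    have hN'inf : N'.Infinite := by
      intro hfin
      have himg : ((fun n => f γ (q n)) '' {n | q n < γ}).Finite := by
        rw [← hbij.image_eq]
        exact hfin.image _
      apply hγ
      have : {n | q n < γ} ⊆ ⋃ k ∈ (fun n => f γ (q n)) '' {n | q n < γ},
          {n | q n < γ ∧ f γ (q n) = k} := by
        intro n hn
        exact mem_iUnion₂.2 ⟨f γ (q n), ⟨n, hn, rfl⟩, hn, rfl⟩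
      exact (himg.biUnion fun k _ => hfib k).subset this
    have hB : ((↑) '' (q '' N') : Set X) ∈ ℬ f := by
      refine ⟨γ, q '' N', ?_, ?_, rfl⟩
      · rintro _ ⟨n, hn, rfl⟩
        exact hN' hn
      · rintro _ ⟨n, hn, rfl⟩ _ ⟨m, hm, rfl⟩ h
        rw [hbij.injOn hn hm h]
    have hfin := hΓ _ hB
    apply hN'inf
    have hinj : Function.Injective fun n => ({(q n : X)}ᶜ : Set X) := fun n m h => by
      have h1 := compl_injective h
      rw [singleton_eq_singleton_iff] at h1
      exact hq (OnePoint.coe_injective h1)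
    refine Finite.of_finite_image (f := fun n => ({(q n : X)}ᶜ : Set X)) (hfin.subset ?_) hinj.injOn
    rintro _ ⟨n, hn, rfl⟩
    refine ⟨⟨n, rfl⟩, fun hsub => ?_⟩
    exact hsub ⟨q n, ⟨n, hn, rfl⟩, rfl⟩ rfl

/-- a maximum of `insert b S` for finite `S` -/
lemma exists_ub (S : Set D) (b : D) (hS : S.Finite) :
    ∃ u ∈ insert b S, b ≤ u ∧ ∀ x ∈ S, x ≤ u := by
  obtain ⟨u, hu, hmax⟩ := (hS.insert b).exists_maximal (insert_nonempty b S)
  have hall : ∀ x ∈ insert b S, x ≤ u := fun x hx => by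
    rcases le_total x u with h | h
    · exact h
    · exact hmax hx h
  exact ⟨u, hu, hall b (mem_insert _ _), fun x hx => hall x (mem_insert_of_mem _ hx)⟩

/-- Two has no winning strategy in the game for `𝒪` -/
lemma not_twoWins_O (f : D → D → ℕ)
    (hf1 : ∀ γ x y, x ≤ y → y < γ → f γ x ≤ f γ y) :
    ¬ TwoWins X 𝒜 (OFam X (ℬ f)) := by
  classical
  rintro ⟨σ, hσ⟩
  -- the moves of One
  let mv : D → Set X := fun a => insert OnePoint.infty ((↑) '' Iic a)
  have hmv : ∀ a, mv a ∈ 𝒜 := fun a => by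
    refine ⟨Iic a, ?_, rfl⟩
    have : Iic a = insert a (Iio a) := by
      ext x
      simp [le_iff_eq_or_lt]
    rw [this]
    exact (countable_Iio a).insert a
  -- complements of Two's answers
  let G : List D → D → Set D := fun l a => {x : D | (x : X) ∉ σ (l.map mv) (mv a)}
  have hG : ∀ l a, (G l a).Finite ∧ (G l a).Nonempty ∧ ∀ x ∈ G l a, a < x := by
    intro l a
    -- extend `l ++ [a]` to a play
    let s : ℕ → D := fun n => (l ++ [a]).getD n a
    have h1 := (hσ (fun n => mv (s n)) (fun n => hmv _)).1 l.length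
    have h2 : hist (fun n => mv (s n)) l.length = l.map mv := by
      unfold hist
      apply List.ext_getElem
      · simp
      · intro n h3 h4
        simp only [List.length_map, List.length_range] at h3
        simp only [List.getElem_map, List.getElem_range, s]
        rw [List.getD_eq_getElem _ _ (by simp; omega), List.getElem_append_left h3]
    have h3 : s l.length = a := by
      simp only [s]
      rw [List.getD_eq_getElem _ _ (by simp)]
      simp
    simp only [h2, h3] at h1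
    obtain ⟨h4, h5, h6⟩ := legal_spec h1
    refine ⟨h4, h5, fun x hx => ?_⟩
    by_contra hcon
    exact (Set.disjoint_left.1 h6) hx (not_lt.1 hcon)
  -- closure points
  let Cl : D → Prop := fun δ => ∀ (l : List D) (a : D), (∀ x ∈ l, x < δ) → a < δ →
    ∀ x ∈ G l a, x < δ
  have hCl : ∀ b : D, ∃ δ, b < δ ∧ Cl δ := by
    intro b
    have hstep : ∀ c : D, ∃ d, c < d ∧ ∀ (l : List D) (a : D), (∀ x ∈ l, x ≤ c) → a ≤ c →
        ∀ x ∈ G l a, x < d := by
      intro c
      have hcc : (Iic c).Countable := by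
        have : Iic c = insert c (Iio c) := by
          ext x
          simp [le_iff_eq_or_lt]
        rw [this]
        exact (countable_Iio c).insert c
      have hcl : {l : List D | ∀ x ∈ l, x ∈ Iic c}.Countable := by
        have : Countable (Iic c) := hcc.to_subtype
        refine (countable_range fun l : List (Iic c) => l.map Subtype.val).mono ?_
        intro l hl
        refine ⟨l.attach.map fun x => ⟨x.1, hl x.1 x.2⟩, ?_⟩
        simp only [List.map_map]
        exact List.attach_map_subtype_val l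
      have h1 : (⋃ l ∈ {l : List D | ∀ x ∈ l, x ∈ Iic c}, ⋃ a ∈ Iic c, G l a).Countable :=
        hcl.biUnion fun l _ => hcc.biUnion fun a _ => (hG l a).1.countable
      obtain ⟨d, hd⟩ := exists_gt_of_countable countable_Iio (h1.insert c)
      refine ⟨d, hd c (mem_insert _ _), fun l a hl ha x hx => hd x (Or.inr ?_)⟩
      exact mem_iUnion₂.2 ⟨l, hl, mem_iUnion₂.2 ⟨a, ha, hx⟩⟩
    choose h hh1 hh2 using hstep
    let s : ℕ → D := fun n => h^[n] b
    have hs : ∀ n, s (n + 1) = h (s n) := fun n => Function.iterate_succ_apply' h n b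
    have hmono : StrictMono s := strictMono_nat_of_lt_succ fun n => by
      rw [hs]
      exact hh1 _
    have hne : {δ : D | ∀ n, s n < δ}.Nonempty := by
      obtain ⟨d, hd⟩ := exists_gt_of_countable countable_Iio (countable_range s)
      exact ⟨d, fun n => hd _ ⟨n, rfl⟩⟩
    obtain ⟨δ, hδ, hmin⟩ : ∃ δ : D, (∀ n, s n < δ) ∧ ∀ x < δ, ∃ n, x ≤ s n := by
      refine ⟨(wellFounded_lt : WellFounded ((· < ·) : D → D → Prop)).min _ hne,
        WellFounded.min_mem _ _ hne, fun x hx => ?_⟩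
      by_contra hcon
      push Not at hcon
      have hcon' : x ∈ {δ : D | ∀ n, s n < δ} := hcon
      exact WellFounded.not_lt_min wellFounded_lt (x := x) _ hcon' hx
    refine ⟨δ, hδ 0, fun l a hl ha x hx => ?_⟩
    -- find `n` with everything below `s n`
    have hn : ∃ n, (∀ x ∈ l, x ≤ s n) ∧ a ≤ s n := by
      obtain ⟨m, hm⟩ := hmin a ha
      clear hx
      induction l with
      | nil => exact ⟨m, by simp, hm⟩
      | cons y l ih =>
        obtain ⟨n, hn1, hn2⟩ := ih (fun x hx => hl x (List.mem_cons_of_mem _ hx))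
        obtain ⟨k, hk⟩ := hmin y (hl y List.mem_cons_self)
        refine ⟨max n k, ?_, hn2.trans (hmono.monotone (le_max_left _ _))⟩
        intro x hx
        rcases List.mem_cons.1 hx with rfl | hx
        · exact hk.trans (hmono.monotone (le_max_right _ _))
        · exact (hn1 x hx).trans (hmono.monotone (le_max_left _ _))
    obtain ⟨n, hn1, hn2⟩ := hn
    calc x < h (s n) := hh2 _ l a hn1 hn2 x hx
      _ = s (n + 1) := (hs n).symm
      _ < δ := hδ _
  -- two closure points
  obtain ⟨δ, hδ0, hδ⟩ := hCl (Classical.arbitrary D)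
  obtain ⟨γ, hδγ, hγ⟩ := hCl δ
  -- the point `x₀ < δ` with maximal value of `f γ`
  obtain ⟨x₀, hx₀, hx₀max⟩ : ∃ x₀ < δ, ∀ y, x₀ ≤ y → y < δ → f γ y = f γ x₀ := by
    have hb : ∀ y < δ, f γ y ≤ f γ δ := fun y hy => hf1 γ y δ hy.le hδγ
    let T : Set ℕ := f γ '' Iio δ
    have hTne : T.Nonempty := ⟨_, _, hδ0, rfl⟩
    have hTfin : T.Finite := (finite_Iic (f γ δ)).subset (by
      rintro _ ⟨y, hy, rfl⟩
      exact hb y hy)
    obtain ⟨m, hm, hmmax⟩ := hTfin.exists_maximal hTne
    obtain ⟨x₀, hx₀, rfl⟩ := hm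
    refine ⟨x₀, hx₀, fun y hy1 hy2 => ?_⟩
    have h1 : f γ x₀ ≤ f γ y := hf1 γ x₀ y hy1 (hy2.trans hδγ)
    exact le_antisymm (hmmax ⟨y, hy2, rfl⟩ h1) h1
  -- an enumeration of the points below `γ`
  obtain ⟨e, he⟩ : ∃ e : ℕ → D, Iio γ = range e :=
    (countable_Iio γ).exists_eq_range ⟨δ, hδγ⟩
  have helt : ∀ n, e n < γ := fun n => by
    have : e n ∈ Iio γ := he ▸ mem_range_self n
    exact this
  -- the play
  have hub : ∀ (S : Set D) (b : D), ∃ u, S.Finite → (u ∈ insert b S ∧ b ≤ u ∧ ∀ x ∈ S, x ≤ u) := by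
    intro S b
    by_cases hS : S.Finite
    · obtain ⟨u, hu⟩ := exists_ub S b hS
      exact ⟨u, fun _ => hu⟩
    · exact ⟨b, fun h => (hS h).elim⟩
  choose ub hub using hub
  let extra : ℕ → Set D := fun n => if n = 0 then ∅ else {e (n - 1)}
  have hextra : ∀ n, (extra n).Finite := fun n => by
    simp only [extra]
    split_ifs
    · exact finite_empty
    · exact finite_singleton _
  let st : ℕ → List D × D := fun n => Nat.rec ([], x₀)
    (fun n p => (p.1 ++ [p.2], ub (G p.1 p.2 ∪ extra n) p.2)) n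
  let α : ℕ → D := fun n => (st n).2
  have hst : ∀ n, (st n).1 = hist α n := by
    intro n
    induction n with
    | zero => rfl
    | succ n ih =>
      have : (st (n + 1)).1 = (st n).1 ++ [α n] := rfl
      rw [this, ih]
      simp only [hist, List.range_succ, List.map_append, List.map_cons, List.map_nil]
  let F : ℕ → Set D := fun n => G (hist α n) (α n)
  have hα0 : α 0 = x₀ := rfl
  have hαs : ∀ n, α (n + 1) = ub (F n ∪ extra n) (α n) := by
    intro n
    have : α (n + 1) = ub (G (st n).1 (st n).2 ∪ extra n) (st n).2 := rfl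
    rw [this, hst n]
  have hubn : ∀ n, α (n + 1) ∈ insert (α n) (F n ∪ extra n) ∧ α n ≤ α (n + 1) ∧
      ∀ x ∈ F n ∪ extra n, x ≤ α (n + 1) := by
    intro n
    rw [hαs n]
    exact hub _ _ ((hG _ _).1.union (hextra n))
  have hαmono : Monotone α := monotone_nat_of_le_succ fun n => (hubn n).2.1
  have hFlt : ∀ n, ∀ x ∈ F n, α n < x := fun n => (hG _ _).2.2
  have hFle : ∀ n, ∀ x ∈ F n, x ≤ α (n + 1) := fun n x hx => (hubn n).2.2 x (Or.inl hx)
  -- everything is below `γ`
  have hαγ : ∀ n, α n < γ ∧ ∀ x ∈ F n, x < γ := by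
    have key : ∀ n, (∀ m ≤ n, α m < γ) := by
      intro n
      induction n with
      | zero =>
        intro m hm
        rw [Nat.le_zero.1 hm, hα0]
        exact hx₀.trans hδγ
      | succ n ih =>
        intro m hm
        rcases Nat.le_succ_iff.1 hm with hm | rfl
        · exact ih m hm
        · have hF : ∀ x ∈ F n, x < γ := hγ _ _ (by
            intro x hx
            obtain ⟨k, hk, rfl⟩ := List.mem_map.1 hx
            exact ih k (List.mem_range.1 hk).le) (ih n le_rfl)
          rcases (hubn n).1 with h | h | h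
          · rw [Nat.succ_eq_add_one, h]
            exact ih n le_rfl
          · exact hF _ h
          · simp only [extra] at h
            split_ifs at h with h0
            · exact h.elim
            · rw [mem_singleton_iff] at h
              rw [Nat.succ_eq_add_one, h]
              exact helt _
    intro n
    refine ⟨key n n le_rfl, hγ _ _ ?_ (key n n le_rfl)⟩
    intro x hx
    obtain ⟨k, hk, rfl⟩ := List.mem_map.1 hx
    exact key k k le_rfl
  -- the first two are below `δ`
  have hF0 : ∀ x ∈ F 0, x < δ := hδ _ _ (by simp [hist]) (by rw [hα0]; exact hx₀)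
  have hα1 : α 1 < δ := by
    rcases (hubn 0).1 with h | h | h
    · rw [zero_add] at h
      rw [h, hα0]
      exact hx₀
    · exact hF0 _ h
    · simp [extra] at h
  have hF1 : ∀ x ∈ F 1, x < δ := hδ _ _ (by
    intro x hx
    obtain ⟨k, hk, rfl⟩ := List.mem_map.1 hx
    have : k = 0 := by
      have := List.mem_range.1 hk
      omega
    rw [this, hα0]
    exact hx₀) hα1
  -- pairwise disjoint
  have hdisj : ∀ n m x, x ∈ F n → x ∈ F m → n = m := by
    have aux : ∀ n m x, n < m → x ∈ F n → x ∉ F m := by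
      intro n m x hnm hn hm
      have h1 := hFle n x hn
      have h2 := hFlt m x hm
      have h3 : α (n + 1) ≤ α m := hαmono hnm
      exact absurd (h1.trans h3) (not_le.2 h2)
    intro n m x hn hm
    rcases lt_trichotomy n m with h | h | h
    · exact (aux n m x h hn hm).elim
    · exact h
    · exact (aux m n x h hm hn).elim
  -- the play defeats the strategy
  refine (hσ (fun n => mv (α n)) (fun n => hmv _)).2 ?_
  have hU : ∀ n, σ (hist (fun n => mv (α n)) n) (mv (α n)) = σ ((hist α n).map mv) (mv (α n)) := by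
    intro n
    simp only [hist, List.map_map]
    rfl
  have hlegal := (hσ (fun n => mv (α n)) (fun n => hmv _)).1
  have hmem : ∀ n (x : D), (x : X) ∉ σ (hist (fun n => mv (α n)) n) (mv (α n)) ↔ x ∈ F n := by
    intro n x
    rw [hU n]
    exact Iff.rfl
  have hmem' : ∀ n (x : D), x ∉ F n → (x : X) ∈ σ (hist (fun n => mv (α n)) n) (mv (α n)) :=
    fun n x hx => by
      by_contra hcon
      exact hx ((hmem n x).1 hcon)
  -- every member of `ℬ f` is disjoint from some `F n`
  have hmain : ∀ γ' C, C ⊆ Iio γ' → InjOn (f γ') C → ∃ n, ∀ x ∈ C, x ∉ F n := by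
    intro γ' C hC hinj
    rcases lt_trichotomy γ' γ with h | h | h
    · have hm : γ' ∈ range e := he ▸ h
      obtain ⟨k, hk⟩ := hm
      refine ⟨k + 2, fun x hx hxF => ?_⟩
      have h1 : e k ≤ α (k + 2) := (hubn (k + 1)).2.2 _ (Or.inr (by simp [extra]))
      have h2 : α (k + 2) < x := hFlt _ x hxF
      have h3 : x < e k := by
        rw [hk]
        exact hC hx
      exact absurd (h1.trans_lt h2) (not_lt.2 h3.le)
    · subst h
      by_contra hcon
      push Not at hcon
      obtain ⟨b0, hb0C, hb0⟩ := hcon 0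
      obtain ⟨b1, hb1C, hb1⟩ := hcon 1
      have h0 : f γ' b0 = f γ' x₀ := hx₀max b0 (hFlt 0 b0 hb0).le (hF0 b0 hb0)
      have h1 : f γ' b1 = f γ' x₀ := hx₀max b1
        ((hαmono (Nat.zero_le 1)).trans (hFlt 1 b1 hb1).le) (hF1 b1 hb1)
      have h2 := hinj hb0C hb1C (h0.trans h1.symm)
      subst h2
      exact absurd (hdisj 0 1 b0 hb0 hb1) (by norm_num)
    · by_contra hcon
      push Not at hcon
      choose b hbC hbF using hcon
      have hbinj : Function.Injective b := fun n m hnm =>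
        hdisj n m (b n) (hbF n) (hnm ▸ hbF m)
      have hinf : (range fun n => f γ' (b n)).Infinite := by
        apply infinite_range_of_injective
        intro n m hnm
        exact hbinj (hinj (hbC n) (hbC m) hnm)
      apply hinf
      refine (finite_Iic (f γ' γ)).subset ?_
      rintro _ ⟨n, rfl⟩
      exact hf1 γ' (b n) γ ((hαγ n).2 _ (hbF n)).le h
  refine ⟨?_, ?_, ?_, ?_⟩
  · rintro _ ⟨n, rfl⟩
    exact (hlegal n).1
  · rw [eq_univ_iff_forall]
    intro x
    induction x using OnePoint.rec with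
    | infty => exact ⟨_, ⟨0, rfl⟩, (hlegal 0).2.1 (mem_insert _ _)⟩
    | coe x =>
      by_cases h0 : x ∈ F 0
      · have h1 : x ∉ F 1 := fun h1 => absurd (hdisj 0 1 x h0 h1) (by norm_num)
        exact ⟨_, ⟨1, rfl⟩, hmem' 1 x h1⟩
      · exact ⟨_, ⟨0, rfl⟩, hmem' 0 x h0⟩
  · rintro ⟨n, hn⟩
    exact (hlegal n).2.2 hn
  · rintro _ ⟨γ', C, hC, hinj, rfl⟩
    obtain ⟨n, hn⟩ := hmain γ' C hC hinj
    refine ⟨_, ⟨n, rfl⟩, ?_⟩
    rintro _ ⟨x, hx, rfl⟩
    exact hmem' n x (hn x hx)

/-- There are a compact Hausdorff space `X`, an ideal base `𝒜` (each of whose members lies in an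
open set different from `X`) and a family `ℬ` such that Two has a winning Markov strategy (hence a
winning strategy) in `G₁(𝒩[𝒜], ¬Γ(X,ℬ))`, but no winning strategy (hence no winning Markov
strategy) in `G₁(𝒩[𝒜], ¬𝒪(X,ℬ))`. -/
theorem result : ∃ (X : Type) (_ : TopologicalSpace X) (𝒜 ℬ : Set (Set X)),
    CompactSpace X ∧ T2Space X ∧ IdealBase 𝒜 ∧ (∀ A ∈ 𝒜, ∃ U, IsOpen U ∧ A ⊆ U ∧ U ≠ univ) ∧
    TwoWinsMarkov X 𝒜 (GammaFam X ℬ) ∧ TwoWins X 𝒜 (GammaFam X ℬ) ∧
    ¬ TwoWins X 𝒜 (OFam X ℬ) ∧ ¬ TwoWinsMarkov X 𝒜 (OFam X ℬ) := by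
  obtain ⟨f, hf1, hf2⟩ := exists_ladder countable_Iio
  have hM := markov_gamma f hf2
  have hO := not_twoWins_O f hf1
  refine ⟨X, inferInstance, 𝒜, ℬ f, inferInstance, inferInstance, ?_, ?_, hM, hM.twoWins, hO,
    fun h => hO h.twoWins⟩
  · rintro _ ⟨J₁, hJ₁, rfl⟩ _ ⟨J₂, hJ₂, rfl⟩
    refine ⟨_, ⟨J₁ ∪ J₂, hJ₁.union hJ₂, rfl⟩, ?_⟩
    rw [image_union]
    rintro x ((h | h) | (h | h))
    · exact Or.inl h
    · exact Or.inr (Or.inl h)
    · exact Or.inl h
    · exact Or.inr (Or.inr h)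
  · intro A hA
    obtain ⟨τ, hτ⟩ := hM
    have := (hτ (fun _ => A) (fun _ => hA)).1 0
    exact ⟨_, this⟩

end Pool.Agent.Results.MP_953c35_gt.NotEquivalent
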